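import Pool.Agent.H25.HG.B8

set_option autoImplicit false

/-!
# The rate of decay of the proportion of the algebraic classes on high powers of a variety

Let `X` be a smooth projective complex variety (connected, of dimension `d`), `V = H^*(X, ℚ)` (all
degrees together), with the Hodge decomposition `H p q`, the operator of parity `ε` (`(-1) ^ i` on
`H^i(X, ℚ)`), and the Poincaré form `P (x, y) = ∫ x ∪ y`; `one` is the unit of `H^*(X, ℚ)`, and
`point` is the class of a point; `Q` is a polarization. Let `n = dim V` be the sum of the Betti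
numbers of `X`.

By the Künneth formula and Poincaré duality, a class `c` in `H^*(X ^ N, ℚ)` is the same thing as a
multilinear form in `N` variables in `V` (`Cls V N`), the form
`(v 1, …, v N) ↦ ∫ c ∪ (v 1 × ⋯ × v N)`. The spaces `A N` of the classes of algebraic cycles (with
rational coefficients) on `X ^ N` are a *cycle family* (`IsCycleFamily`): they consist of Hodge
classes, contain the class of the point on `X ^ 0`, the fundamental class and the class of a point on
`X`, and the class of the diagonal on `X × X`, and are stable under the exchange of two consecutive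
factors, exterior products, and the inverse image under the diagonal `X ^ N × X → X ^ N × X × X`
followed by the direct image under the projection `X ^ N × X → X ^ N`. For a cycle family `A` let
`lieDim A` be the dimension over `ℚ` of the Lie algebra of all endomorphisms of `V` which annihilate
(as derivations) all classes in all `A N`.

**Theorem.** There is a Hodge class `c` on `X ^ 4`, which depends only on the Hodge structure, such
that the following is true. Let `p (m)` be the proportion of the algebraic classes among the Hodge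
classes on `X ^ (2 m)`, the quotient of the dimensions. Suppose that the operator `ε` and the star
operator of the polarization (`Q (x, y) = ∫ * x ∪ y`) are algebraic (part of the standard
conjectures, known for abelian varieties, surfaces, complete intersections, and their products).

* **The exact rate.** `m ^ (e / 2) p (m)` converges to a positive real number, where `e ≥ 0` is the
  integer `lieDim A - lieDim Hdg`; more precisely, `m ^ (lieDim A / 2) dim A (2 m) / n ^ (2 m)` and
  the same quotient for the Hodge classes converge to positive real numbers.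
* **The case `e = 0`.** If `e = 0` then `c` is algebraic, `p (m) → 1 / k` for an integer `k ≥ 1`, and
  the error is exponentially small: `0 ≤ k dim A (2 m) - dim Hdg (X ^ (2 m)) ≤ (k - 1) θ ^ (2 m)` for
  all `m`, for a real number `θ < n`; and `k = 1` if and only if the Hodge conjecture is true for all
  powers of `X`.
* **One class on `X ^ 4` bounds the rate.** If the Hodge conjecture is true for `X × X` and the one
  class `c` is algebraic, then `e` is at most the dimension `z` of the space of the skew elements
  (`Q (f u, v) = - Q (u, f v)`) of the centre of the algebra of endomorphisms of the Hodge structure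
  (with Tate twists), and if `z = 0` then `e = 0`, `k ≤ 3 ^ (n ^ 2)`, and `θ = n - 1`.

So the proportion of the algebraic classes cannot decay faster than `m ^ (- z / 2)` if the Hodge
conjecture is true for `X × X` and for one class on `X ^ 4`. The theorem is true for every cycle
family, for example also for the families of absolute Hodge classes and of motivated classes.

The proof. The forms on `V × V` all of whose components are Hodge forms, or are in `A`, are the
invariants of compact groups `G' ⊆ G` of unitary symplectic matrices of size `2 n` (as in the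
earlier library result `HalfOfTheHodgeClasses`). So `4 ^ m dim A (2 m)` is the mean value of
`tr (g) ^ (2 m)` for `g` in `G'`. If `tr (g)` is not near to `± 2 n` then its contribution is
exponentially small; near to `± 1` the group is the image of a neighbourhood of zero in its (real)
Lie algebra `L` under the exponential map `exp`, the image of the Haar measure under the logarithm
is absolutely continuous, and its density is determined near to zero by the invariance up to a
factor `1 + o (1)`; since `tr (exp x) = 2 n - |x| ^ 2 / 2 + O (|x| ^ 4)`, the mean value is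
asymptotically a Gaussian integral, a constant times `(2 n) ^ (2 m) m ^ (- dim L / 2)`. The rational
Lie algebra of all endomorphisms of `V` which annihilate `A` is a form of `L`: it has the same
dimension. The class `c` is the Casimir form of the Lie algebra of the Hodge group: the form
`∑ Q (x i u, v) Q (x' i u', v')` for dual bases `x i`, `x' i` of this (rational) Lie algebra with
respect to the trace form. If `e = 0` then `G'` and `G` have the same Lie algebra, and the index `k`
of `G'` in `G` is finite; `G` normalizes its Lie algebra, which is that of `G'`, hence `G'`, and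
therefore fixes the Casimir form, and `c` is algebraic; the formula for the dimensions follows from
the theory of characters, since the traces on the cosets of `G'` in `G` other than `G'` are
bounded by a number smaller than `2 n`. If `c` and the Hodge classes on `X × X` are algebraic then an
endomorphism which annihilates `A` annihilates `c` and the Hodge forms of degree two, therefore it
is the sum of an element of the Lie algebra of `G` and of a skew element of the centre.
-/

noncomputable section

namespace Pool.Agent.H25.Parked.RateOfTheProportion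

open Module Filter Topology Pool.Agent.X259.HS

open scoped TensorProduct

variable {V : Type} [AddCommGroup V] [Module ℚ V]

/-- The space of the Hodge classes on `X ^ N`. -/
def HodgeClasses (H : ℤ → ℤ → Submodule ℂ (ℂ ⊗[ℚ] V)) (N : ℕ) : Submodule ℚ (Cls V N) where
  carrier := {ψ | IsHodgeClass H ψ}
  add_mem' := by
    rintro ψ ψ' ⟨Ψ, h1, h2⟩ ⟨Ψ', h1', h2'⟩
    refine ⟨Ψ + Ψ', fun v => ?_, fun p q x hx hpq => ?_⟩
    · rw [add_apply, h1, h1', add_apply, Rat.cast_add]
    · rw [add_apply, h2 p q x hx hpq, h2' p q x hx hpq, add_zero]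
  zero_mem' := ⟨0, fun v => by rw [zero_apply, zero_apply, Rat.cast_zero],
    fun p q x _ _ => zero_apply x⟩
  smul_mem' := by
    rintro c ψ ⟨Ψ, h1, h2⟩
    refine ⟨(c : ℂ) • Ψ, fun v => ?_, fun p q x hx hpq => ?_⟩
    · rw [smul_apply, h1, smul_apply, smul_eq_mul, smul_eq_mul, Rat.cast_mul]
    · rw [smul_apply, h2 p q x hx hpq, smul_zero]

/-- The Hodge conjecture for `X ^ N`: all Hodge classes on `X ^ N` are in `A N`. -/
def HodgeConjecture (H : ℤ → ℤ → Submodule ℂ (ℂ ⊗[ℚ] V)) (A : ∀ N : ℕ, Submodule ℚ (Cls V N))
    (N : ℕ) : Prop :=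
  ∀ ψ : Cls V N, IsHodgeClass H ψ → ψ ∈ A N

/-- The operator of parity `ε` and the operator `*` with `Q (x, y) = P (* x, y)` are
algebraic: the classes `(x, y) ↦ P (ε x, y)` and `(x, y) ↦ Q (x, y)` on `X × X` are in `A 2`. -/
structure StarAlgebraic (ε : V →ₗ[ℚ] V) (P Q : LinearMap.BilinForm ℚ V)
    (A : ∀ N : ℕ, Submodule ℚ (Cls V N)) : Prop where
  parity : ∀ ψ : Cls V 2, (∀ v, ψ v = P (ε (v 0)) (v 1)) → ψ ∈ A 2
  star : ∀ ψ : Cls V 2, (∀ v, ψ v = Q (v 0) (v 1)) → ψ ∈ A 2

/-- The endomorphisms of `V` which annihilate, as derivations, all classes in the family `A`. -/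
def lieAlg (A : ∀ N : ℕ, Submodule ℚ (Cls V N)) : Submodule ℚ (V →ₗ[ℚ] V) where
  carrier := {f | ∀ N : ℕ, ∀ ψ ∈ A N, ∀ v : Fin N → V,
    ∑ i, ψ (Function.update v i (f (v i))) = 0}
  add_mem' := by
    intro f g hf hg N ψ hψ v
    have h1 := hf N ψ hψ v
    have h2 := hg N ψ hψ v
    simp only [LinearMap.add_apply, MultilinearMap.map_update_add, Finset.sum_add_distrib]
    rw [h1, h2, add_zero]
  zero_mem' := by
    intro N ψ hψ v
    refine Finset.sum_eq_zero fun i _ => ?_
    rw [LinearMap.zero_apply]
    exact ψ.map_update_zero v i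
  smul_mem' := by
    intro c f hf N ψ hψ v
    have h1 := hf N ψ hψ v
    simp only [LinearMap.smul_apply, MultilinearMap.map_update_smul]
    rw [← Finset.smul_sum, h1, smul_zero]

/-- The dimension of the Lie algebra which annihilates the family `A`. -/
def lieDim (A : ∀ N : ℕ, Submodule ℚ (Cls V N)) : ℕ := finrank ℚ (lieAlg A)

/-- The skew elements of the centre of the algebra of endomorphisms of the Hodge structure. -/
def skewCentre (H : ℤ → ℤ → Submodule ℂ (ℂ ⊗[ℚ] V)) (Q : LinearMap.BilinForm ℚ V) :
    Submodule ℚ (V →ₗ[ℚ] V) where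
  carrier := {f | IsHodgeEndo H f ∧ (∀ f' : V →ₗ[ℚ] V, IsHodgeEndo H f' → f ∘ₗ f' = f' ∘ₗ f) ∧
    ∀ u v, Q (f u) v = -Q u (f v)}
  add_mem' := fun {f g} hf hg => ⟨fun p q x hx => by
      rw [LinearMap.baseChange_add, LinearMap.add_apply]
      exact Submodule.add_mem _ (hf.1 p q x hx) (hg.1 p q x hx),
    fun f' hf' => by
      rw [LinearMap.add_comp, LinearMap.comp_add, hf.2.1 f' hf', hg.2.1 f' hf'],
    fun u v => by
      rw [LinearMap.add_apply, LinearMap.add_apply, map_add, map_add, LinearMap.add_apply,
        hf.2.2, hg.2.2]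
      ring⟩
  zero_mem' := ⟨fun p q x hx => by
      rw [LinearMap.baseChange_zero, LinearMap.zero_apply]
      exact Submodule.zero_mem _,
    fun f' hf' => by rw [LinearMap.zero_comp, LinearMap.comp_zero],
    fun u v => by
      rw [LinearMap.zero_apply, LinearMap.zero_apply, map_zero, map_zero, LinearMap.zero_apply,
        neg_zero]⟩
  smul_mem' := fun c f hf => ⟨fun p q x hx => by
      rw [LinearMap.baseChange_smul, LinearMap.smul_apply]
      exact Submodule.smul_of_tower_mem _ c (hf.1 p q x hx),
    fun f' hf' => by rw [LinearMap.smul_comp, LinearMap.comp_smul, hf.2.1 f' hf'],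
    fun u v => by
      rw [LinearMap.smul_apply, LinearMap.smul_apply, map_smul, map_smul, LinearMap.smul_apply,
        hf.2.2, smul_neg]⟩

/-- The proportion of the classes in the family among the Hodge classes on `X ^ (2 m)`. -/
def proportion (H : ℤ → ℤ → Submodule ℂ (ℂ ⊗[ℚ] V)) (A : ∀ N : ℕ, Submodule ℚ (Cls V N))
    (m : ℕ) : ℝ :=
  (finrank ℚ (A (2 * m)) : ℝ) / (finrank ℚ (HodgeClasses H (2 * m)) : ℝ)

/-- `f (m)` is asymptotically a positive constant times `m ^ (- e / 2)`. -/
def DecaysLike (f : ℕ → ℝ) (e : ℕ) : Prop :=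
  ∃ c : ℝ, 0 < c ∧ Tendsto (fun m : ℕ => Real.sqrt m ^ e * f m) atTop (𝓝 c)

/-- One out of `k` Hodge classes is in the family, up to an exponentially small error: `k ≥ 1`; the
proportion on `X ^ (2 m)` converges to `1 / k`, and more precisely `k dim A (2 m) - dim Hdg (2 m)`
is between `0` and `(k - 1) θ ^ (2 m)`; and `k = 1` if and only if the Hodge conjecture is true for
all powers of `X`. -/
structure OneOutOf (H : ℤ → ℤ → Submodule ℂ (ℂ ⊗[ℚ] V)) (A : ∀ N : ℕ, Submodule ℚ (Cls V N))
    (k : ℕ) (θ : ℝ) : Prop where
  pos : 1 ≤ k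
  limit : Tendsto (proportion H A) atTop (𝓝 (1 / (k : ℝ)))
  lower : ∀ m : ℕ, finrank ℚ (HodgeClasses H (2 * m)) ≤ k * finrank ℚ (A (2 * m))
  upper : ∀ m : ℕ, (k : ℝ) * finrank ℚ (A (2 * m)) ≤
    finrank ℚ (HodgeClasses H (2 * m)) + ((k : ℝ) - 1) * θ ^ (2 * m)
  all : k = 1 ↔ ∀ N : ℕ, HodgeConjecture H A N

/-- **The rate of decay of the proportion of the algebraic classes.** -/
theorem result [FiniteDimensional ℚ V] (n : ℕ) (hV : finrank ℚ V = n)
    -- the Hodge structure, the operator of parity and a polarization
    (H : ℤ → ℤ → Submodule ℂ (ℂ ⊗[ℚ] V)) (ε : V →ₗ[ℚ] V) (hH : IsHodgeStructure H ε)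
    (Q : LinearMap.BilinForm ℚ V) (hQ : IsPolarization H ε Q)
    -- the Poincaré form, the fundamental class and the class of a point
    (P : LinearMap.BilinForm ℚ V) (one point : V) (hP : IsPoincare ε P one point) :
    -- the Hodge class on `X ^ 4`
    ∃ c : Cls V 4, IsHodgeClass H c ∧
      -- the algebraic classes on the powers
      ∀ A : ∀ N : ℕ, Submodule ℚ (Cls V N), IsCycleFamily H ε P one point A →
        (StarAlgebraic ε P Q A →
          DecaysLike (fun m => (finrank ℚ (HodgeClasses H (2 * m)) : ℝ) / (n : ℝ) ^ (2 * m))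
            (lieDim (HodgeClasses H)) ∧
          DecaysLike (fun m => (finrank ℚ (A (2 * m)) : ℝ) / (n : ℝ) ^ (2 * m)) (lieDim A) ∧
          ∃ e : ℕ, lieDim A = lieDim (HodgeClasses H) + e ∧ DecaysLike (proportion H A) e ∧
            (e = 0 → c ∈ A 4 ∧ ∃ (k : ℕ) (θ : ℝ), 0 ≤ θ ∧ θ < n ∧ OneOutOf H A k θ)) ∧
        (HodgeConjecture H A 2 → c ∈ A 4 → StarAlgebraic ε P Q A ∧
          lieDim A ≤ lieDim (HodgeClasses H) + finrank ℚ (skewCentre H Q) ∧
          (skewCentre H Q = ⊥ → ∃ k : ℕ, k ≤ 3 ^ (n ^ 2) ∧ OneOutOf H A k ((n : ℝ) - 1))) := by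
  subst hV
  have hn : 1 ≤ finrank ℚ V := by
    rw [Nat.one_le_iff_ne_zero]
    intro h0
    have h1 : Subsingleton V := Module.finrank_zero_iff.1 h0
    have h2 := hP.point
    rw [Subsingleton.elim one 0, map_zero] at h2
    exact zero_ne_one h2
  have hlie : ∀ A : ∀ N : ℕ, Submodule ℚ (Cls V N), lieAlg A = Pool.Agent.H25.HG.KA A :=
    fun A => rfl
  obtain ⟨⟨Λ, hΛ, hgH⟩, c, hc, hall⟩ := Pool.Agent.H25.HG.law_hs (P := P) (one := one)
    (point := point) hH hQ hn (HodgeClasses H) fun N ψ => Iff.rfl
  refine ⟨c, hc, fun A hA => ⟨fun hs => ?_, fun h2 hcA => ?_⟩⟩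
  · obtain ⟨⟨Λ', hΛ', hgA⟩, K, h1, h2, h3, h4, _⟩ := hall A hA hP (hs.parity _ fun v => rfl)
      (hs.star _ fun v => rfl)
    have hle : lieDim (HodgeClasses H) ≤ lieDim A := by
      refine Submodule.finrank_mono fun f hf N ψ hψ v => hf N ψ (hA.hodge N ψ hψ) v
    obtain ⟨e, he⟩ := Nat.exists_eq_add_of_le hle
    refine ⟨⟨Λ, hΛ, hgH⟩, ⟨Λ', hΛ', hgA⟩, e, he, ⟨Λ' / Λ, by positivity, ?_⟩, fun he0 => ?_⟩
    · have h5 := hgA.div hgH hΛ.ne'
      refine h5.congr' ?_
      filter_upwards [eventually_ge_atTop 1] with m hm
      have hm' : 0 < Real.sqrt m := Real.sqrt_pos.2 (by exact_mod_cast hm)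
      have hn' : (0 : ℝ) < (finrank ℚ V : ℝ) ^ (2 * m) := by
        have : (0 : ℝ) < finrank ℚ V := by exact_mod_cast hn
        positivity
      change Real.sqrt m ^ (lieDim A) * _ / (Real.sqrt m ^ (lieDim (HodgeClasses H)) * _) = _
      rw [he, pow_add, proportion]
      have hs1 : Real.sqrt m ^ (lieDim (HodgeClasses H)) ≠ 0 := by positivity
      field_simp
    · have h5 : finrank ℚ (Pool.Agent.H25.HG.KA A) ≤
          finrank ℚ (Pool.Agent.H25.HG.KA (HodgeClasses H)) := by
        have h6 : lieDim A = lieDim (HodgeClasses H) := by rw [he, he0, add_zero]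
        exact h6.le
      obtain ⟨hK0, θ, hθ0, hθ, hform⟩ := h4 h5
      refine ⟨h3 hK0, K, θ, hθ0, hθ, Nat.one_le_iff_ne_zero.2 hK0, ?_, fun m => ?_, fun m => ?_, h2⟩
      · rw [one_div]
        exact h1
      · exact_mod_cast (hform m).1
      · exact (hform m).2
  · obtain ⟨hεA, hQA⟩ := Pool.Agent.X259.U.star_of_two hA hP hH hQ h2
    obtain ⟨_, K, h1, h2', _, _, h5⟩ := hall A hA hP hεA hQA
    obtain ⟨h6, h7⟩ := h5 h2 hcA
    refine ⟨⟨fun ψ hψ => ?_, fun ψ hψ => ?_⟩, ?_, fun hbot => ?_⟩
    · have h8 : ψ = Pool.Agent.X259.U.bil (LinearMap.comp P ε) := by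
        ext v
        rw [hψ]
        rfl
      rw [h8]
      exact hεA
    · have h8 : ψ = Pool.Agent.X259.U.bil Q := by
        ext v
        rw [hψ]
        rfl
      rw [h8]
      exact hQA
    · have h8 : lieAlg A ≤ lieAlg (HodgeClasses H) ⊔ skewCentre H Q := by
        intro f hf
        obtain ⟨g, hg, h9⟩ := h6 f hf
        have h10 : f = g + (f - g) := by abel
        rw [h10]
        exact Submodule.add_mem_sup hg ⟨h9.1, h9.2.1, h9.2.2⟩
      exact (Submodule.finrank_mono h8).trans (Submodule.finrank_add_le_finrank_add_finrank _ _)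
    · obtain ⟨hK0, hK, hform⟩ := h7 fun f hf => by
        have h8 : f ∈ skewCentre H Q := ⟨hf.1, hf.2.1, hf.2.2⟩
        rw [hbot] at h8
        exact (Submodule.mem_bot ℚ).1 h8
      refine ⟨K, hK, Nat.one_le_iff_ne_zero.2 hK0, ?_, fun m => ?_, fun m => ?_, h2'⟩
      · rw [one_div]
        exact h1
      · exact_mod_cast (hform m).1
      · exact (hform m).2

end Pool.Agent.H25.Parked.RateOfTheProportion
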